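import Pool.Agent.Helper5.LCU.Stmts

set_option autoImplicit false

open Finset Pool.Agent.Helper89.UB Pool.Agent.Helper5.LCU

namespace Pool.Agent.Helper93.LCU

theorem alU {n : ℕ} (E : Finset (Finset (Fin n))) (A B : Finset (Fin n)) (hd : Disjoint A B)
    (hE : ∀ e ∈ E, e ⊆ A ∪ B → e ⊆ A ∨ e ⊆ B) (X Y : Finset (Fin n)) (hX : X ⊆ A) (hY : Y ⊆ B) :
    Al E (X ∪ Y) ↔ Al E X ∧ Al E Y := by
  constructor
  · intro h
    exact ⟨fun e he hx => h e he (hx.trans subset_union_left),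
      fun e he hx => h e he (hx.trans subset_union_right)⟩
  · rintro ⟨h1, h2⟩ e he hx
    rcases hE e he (hx.trans (union_subset_union hX hY)) with h | h
    · apply h1 e he
      intro a ha
      rcases mem_union.1 (hx ha) with h3 | h3
      · exact h3
      · exact absurd (hY h3) (disjoint_left.1 hd (h ha))
    · apply h2 e he
      intro a ha
      rcases mem_union.1 (hx ha) with h3 | h3
      · exact absurd (h ha) (disjoint_left.1 hd (hX h3))
      · exact h3

theorem fzU {n : ℕ} (E : Finset (Finset (Fin n))) (A B : Finset (Fin n)) (hd : Disjoint A B)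
    (hE : ∀ e ∈ E, e ⊆ A ∪ B → e ⊆ A ∨ e ⊆ B) (X Y : Finset (Fin n)) (hX : X ⊆ A) (hY : Y ⊆ B) :
    fz E (X ∪ Y) = fz E X * fz E Y := by
  have h := alU E A B hd hE X Y hX hY
  unfold fz
  by_cases h1 : Al E X
  · by_cases h2 : Al E Y
    · rw [if_pos (h.2 ⟨h1, h2⟩), if_pos h1, if_pos h2]; norm_num
    · rw [if_neg (fun hh => h2 (h.1 hh).2), if_pos h1, if_neg h2]; norm_num
  · rw [if_neg (fun hh => h1 (h.1 hh).1), if_neg h1]; norm_num

theorem sumU {n : ℕ} (A B : Finset (Fin n)) (hd : Disjoint A B) (g : Finset (Fin n) → ℤ) :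
    ∑ S ∈ (A ∪ B).powerset, g S = ∑ X ∈ A.powerset, ∑ Y ∈ B.powerset, g (X ∪ Y) := by
  rw [← sum_product']
  symm
  apply sum_nbij' (fun p : Finset (Fin n) × Finset (Fin n) => p.1 ∪ p.2)
    (fun S => (S ∩ A, S ∩ B))
  · intro p hp
    rw [mem_product, mem_powerset, mem_powerset] at hp
    exact mem_powerset.2 (union_subset_union hp.1 hp.2)
  · intro S hS
    rw [mem_product, mem_powerset, mem_powerset]
    exact ⟨inter_subset_right, inter_subset_right⟩
  · rintro ⟨X, Y⟩ hp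
    rw [mem_product, mem_powerset, mem_powerset] at hp
    have h1 : (X ∪ Y) ∩ A = X := by
      rw [union_inter_distrib_right, inter_eq_left.2 hp.1,
        (disjoint_iff_inter_eq_empty.1 ((hd.mono_right hp.2).symm)), union_empty]
    have h2 : (X ∪ Y) ∩ B = Y := by
      rw [union_inter_distrib_right, inter_eq_left.2 hp.2,
        (disjoint_iff_inter_eq_empty.1 (hd.mono_left hp.1)), empty_union]
    simp only [h1, h2]
  · intro S hS
    simp only
    rw [← inter_union_distrib_left]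
    exact inter_eq_left.2 (mem_powerset.1 hS)
  · intro p hp
    rfl

theorem sdU {n : ℕ} (A B : Finset (Fin n)) (hd : Disjoint A B) (X Y : Finset (Fin n))
    (hX : X ⊆ A) (hY : Y ⊆ B) : (A ∪ B) \ (X ∪ Y) = (A \ X) ∪ (B \ Y) := by
  ext a
  simp only [mem_sdiff, mem_union, not_or]
  constructor
  · rintro ⟨h1 | h1, h2, h3⟩
    · exact Or.inl ⟨h1, h2⟩
    · exact Or.inr ⟨h1, h3⟩
  · rintro (⟨h1, h2⟩ | ⟨h1, h2⟩)
    · exact ⟨Or.inl h1, h2, fun h3 => disjoint_left.1 hd h1 (hY h3)⟩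
    · exact ⟨Or.inr h1, fun h3 => disjoint_left.1 hd (hX h3) h1, h2⟩

theorem pwU {n : ℕ} (E : Finset (Finset (Fin n))) (A B : Finset (Fin n)) (hd : Disjoint A B)
    (hE : ∀ e ∈ E, e ⊆ A ∪ B → e ⊆ A ∨ e ⊆ B) (q : ℕ) :
    ∀ A1 ⊆ A, ∀ B1 ⊆ B, pw (fz E) q (A1 ∪ B1) = pw (fz E) q A1 * pw (fz E) q B1 := by
  induction q with
  | zero =>
    intro A1 hA B1 hB
    simp only [pw, union_eq_empty]
    by_cases h1 : A1 = ∅
    · by_cases h2 : B1 = ∅
      · rw [if_pos ⟨h1, h2⟩, if_pos h1, if_pos h2]; norm_num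
      · rw [if_neg (fun h => h2 h.2), if_neg h2, mul_zero]
    · rw [if_neg (fun h => h1 h.1), if_neg h1, zero_mul]
  | succ q ih =>
    intro A1 hA B1 hB
    have hd1 : Disjoint A1 B1 := (hd.mono_left hA).mono_right hB
    simp only [pw]
    rw [sumU A1 B1 hd1, sum_mul_sum]
    apply sum_congr rfl
    intro X hX
    apply sum_congr rfl
    intro Y hY
    rw [mem_powerset] at hX hY
    rw [fzU E A B hd hE X Y (hX.trans hA) (hY.trans hB), sdU A1 B1 hd1 X Y hX hY,
      ih (A1 \ X) (sdiff_subset.trans hA) (B1 \ Y) (sdiff_subset.trans hB)]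
    ring

theorem st_GL0 : ST_GL0 := by
  intro n E A B hd hE q
  exact pwU E A B hd hE q A subset_rfl B subset_rfl

end Pool.Agent.Helper93.LCU
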